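import Mathlib

/-!
From a lower bound of Linnik type for primes in residue classes to many divisors `d` of a squarefree
number for which `d * k + 1` is prime, with one common `k` prime to all these `d`.
-/

set_option autoImplicit false

namespace Pool.Agent.H588_CM

open Finset

/-- the hypothesis of Linnik type: a lower bound in every coprime residue class, for all moduli
`q ≤ z ^ (1/16)` not divisible by `q₁` -/
def LinH (K : ℕ) (c : ℝ) (z q₁ : ℕ) : Prop :=
  ∀ q b : ℕ, 0 < q → q ^ 16 ≤ z → ¬ q₁ ∣ q → b.Coprime q →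
    c / (q.totient : ℝ) ≤
      ∑ p ∈ (Ioc z (z ^ K)).filter (fun p => p.Prime ∧ p ≡ b [MOD q]), (1 : ℝ) / p

/-- the set of admissible `k` for `d` -/
def Adm (K z d k : ℕ) : Prop :=
  (d * k + 1).Prime ∧ z < d * k + 1 ∧ d * k + 1 ≤ z ^ K ∧ k.Coprime d

theorem totient_sq (d : ℕ) (hd : 0 < d) : (d ^ 2).totient = d * d.totient := by
  have h := Nat.totient_gcd_mul_totient_mul d d
  rw [Nat.gcd_self] at h
  have hpos := Nat.totient_pos.2 hd
  rw [sq]
  apply Nat.eq_of_mul_eq_mul_left hpos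
  rw [h]
  ring

open Classical in
theorem sum_adm {K : ℕ} {c : ℝ} {z q₁ : ℕ} (h : LinH K c z q₁) {d : ℕ} (hd : 0 < d)
    (hdz : d ^ 32 ≤ z) (hq : ¬ q₁ ∣ d ^ 2) :
    c / (d : ℝ) ≤ ∑ k ∈ (Icc 1 (z ^ K)).filter (fun k => Adm K z d k),
      (1 : ℝ) / ((d * k + 1 : ℕ) : ℝ) := by
  have hdR : (0 : ℝ) < d := by exact_mod_cast hd
  have hz1 : 1 ≤ z := le_trans (Nat.one_le_pow _ _ hd) hdz
  set T := (Icc 1 (z ^ K)).filter (fun k => Adm K z d k) with hT
  set J := (range d).filter (fun j => d.Coprime j) with hJ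
  have hmap : ∀ k ∈ T, k % d ∈ J := by
    intro k hk
    rw [hT, mem_filter] at hk
    rw [hJ, mem_filter, mem_range]
    refine ⟨Nat.mod_lt _ hd, ?_⟩
    have h1 := hk.2.2.2.2
    rw [Nat.Coprime, Nat.gcd_comm, Nat.gcd_rec] at h1
    rw [Nat.Coprime, Nat.gcd_comm]
    exact h1
  rw [← sum_fiberwise_of_maps_to hmap]
  have hcard : J.card = d.totient := by
    rw [hJ, Nat.totient_eq_card_coprime]
  have hphi : (0 : ℝ) < (d.totient : ℝ) := by exact_mod_cast Nat.totient_pos.2 hd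
  have hL : c / (d : ℝ) = ∑ _j ∈ J, c / ((d ^ 2).totient : ℝ) := by
    rw [sum_const, hcard, nsmul_eq_mul, totient_sq d hd]
    push_cast
    field_simp
  rw [hL]
  refine sum_le_sum fun j hj => ?_
  rw [hJ, mem_filter, mem_range] at hj
  have hd2 : 0 < d ^ 2 := by positivity
  have hcop : (1 + j * d).Coprime (d ^ 2) := by
    apply Nat.Coprime.pow_right
    simp
  have h16 : (d ^ 2) ^ 16 ≤ z := by rw [← pow_mul]; exact hdz
  refine (h (d ^ 2) (1 + j * d) hd2 h16 hq hcop).trans ?_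
  have hinj : Function.Injective (fun k : ℕ => d * k + 1) := by
    intro a b hab
    have : d * a = d * b := by simpa using hab
    exact Nat.eq_of_mul_eq_mul_left hd this
  rw [← sum_image (s := T.filter (fun k => k % d = j)) (g := fun k : ℕ => d * k + 1)
    (f := fun p : ℕ => (1 : ℝ) / (p : ℝ)) (fun a _ b _ hab => hinj hab)]
  refine sum_le_sum_of_subset_of_nonneg ?_ (fun i _ _ => by positivity)
  intro p hp
  rw [mem_filter, mem_Ioc] at hp
  obtain ⟨⟨hp1, hp2⟩, hp3, hp4⟩ := hp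
  have hp0 : 1 ≤ p := hp3.one_le
  have h5 : p ≡ 1 [MOD d] := by
    have h6 : p ≡ 1 + j * d [MOD d] := hp4.of_dvd (dvd_pow_self d (by norm_num))
    exact h6.trans (by simp [Nat.ModEq])
  have h7 : d ∣ p - 1 := (Nat.modEq_iff_dvd' hp0).1 h5.symm
  obtain ⟨k, hk⟩ := h7
  have hpk : p = d * k + 1 := by omega
  have h8 : k ≡ j [MOD d] := by
    have h9 : d * k ≡ d * j [MOD d * d] := by
      have h10 : d * k + 1 ≡ d * j + 1 [MOD d * d] := by
        rw [← hpk, ← sq]
        exact hp4.trans (by rw [add_comm 1, mul_comm j])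
      exact Nat.ModEq.add_right_cancel' 1 h10
    exact Nat.ModEq.mul_left_cancel' (by omega) h9
  have h11 : k % d = j := by
    rw [Nat.ModEq, Nat.mod_eq_of_lt hj.1] at h8
    exact h8
  have hk1 : 1 ≤ k := by
    rcases Nat.eq_zero_or_pos k with h0 | h0
    · rw [h0] at hpk; omega
    · exact h0
  have hkz : k ≤ z ^ K := by
    have : k ≤ d * k := Nat.le_mul_of_pos_left k hd
    omega
  rw [mem_image]
  refine ⟨k, ?_, hpk.symm⟩
  rw [mem_filter, hT, mem_filter, mem_Icc]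
  refine ⟨⟨⟨hk1, hkz⟩, ?_, ?_, ?_, ?_⟩, h11⟩
  · rw [← hpk]; exact hp3
  · rw [← hpk]; exact hp1
  · rw [← hpk]; exact hp2
  · rw [Nat.Coprime, Nat.gcd_comm, Nat.gcd_rec, h11, Nat.gcd_comm]
    exact hj.2

open Classical in
/-- the double counting -/
theorem exists_k {K : ℕ} {c : ℝ} {z q₁ : ℕ} (hK : 1 ≤ K) (hc : 0 < c) (hz : 3 ≤ z)
    (h : LinH K c z q₁)
    {D : Finset ℕ} {i : ℕ} (hDne : D.Nonempty) (hD : ∀ d ∈ D, 2 ^ i ≤ d ∧ d < 2 ^ (i + 1))
    (hDz : ∀ d ∈ D, d ^ 32 ≤ z) (hDq : ∀ d ∈ D, ¬ q₁ ∣ d ^ 2) :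
    ∃ k : ℕ, 1 ≤ k ∧ k ≤ z ^ K ∧
      c * D.card / (4 * K * Real.log z) ≤ ((D.filter (fun d => Adm K z d k)).card : ℝ) := by
  by_contra hcon
  push Not at hcon
  have hKR : (1 : ℝ) ≤ K := by exact_mod_cast hK
  have hlog : (1 : ℝ) ≤ Real.log z := by
    rw [Real.le_log_iff_exp_le (by exact_mod_cast (by omega : 0 < z))]
    have h5 : Real.exp 1 < 2.7182818286 := Real.exp_one_lt_d9
    have h6 : (3 : ℝ) ≤ (z : ℝ) := by exact_mod_cast hz
    linarith
  set X : ℝ := c * D.card / (4 * K * Real.log z) with hX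
  have hcardpos : (0 : ℝ) < D.card := by exact_mod_cast hDne.card_pos
  have hXpos : 0 < X := by rw [hX]; positivity
  have h2i : (0 : ℝ) < 2 ^ i := by positivity
  -- lower bound
  have h1 : c * D.card / (2 ^ (i + 1) : ℝ) ≤ ∑ d ∈ D, c / (d : ℝ) := by
    have : ∑ _d ∈ D, c / (2 ^ (i + 1) : ℝ) ≤ ∑ d ∈ D, c / (d : ℝ) := by
      refine sum_le_sum fun d hd => ?_
      have hd1 := hD d hd
      have hdpos : (0 : ℝ) < d := by
        have : 0 < d := lt_of_lt_of_le (by positivity) hd1.1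
        exact_mod_cast this
      apply div_le_div_of_nonneg_left hc.le hdpos
      exact_mod_cast hd1.2.le
    rw [sum_const, nsmul_eq_mul] at this
    calc c * D.card / (2 ^ (i + 1) : ℝ) = D.card * (c / (2 ^ (i + 1) : ℝ)) := by ring
      _ ≤ _ := this
  have h2 : ∑ d ∈ D, c / (d : ℝ) ≤ ∑ d ∈ D, ∑ k ∈ (Icc 1 (z ^ K)).filter (fun k => Adm K z d k),
      (1 : ℝ) / ((d * k + 1 : ℕ) : ℝ) := by
    refine sum_le_sum fun d hd => ?_
    exact sum_adm h (lt_of_lt_of_le (by positivity) (hD d hd).1) (hDz d hd) (hDq d hd)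
  have h3 : ∑ d ∈ D, ∑ k ∈ (Icc 1 (z ^ K)).filter (fun k => Adm K z d k),
      (1 : ℝ) / ((d * k + 1 : ℕ) : ℝ) ≤
      ∑ k ∈ Icc 1 (z ^ K), ((D.filter (fun d => Adm K z d k)).card : ℝ) * (1 / (2 ^ i * k)) := by
    simp only [sum_filter]
    rw [sum_comm]
    refine sum_le_sum fun k hk => ?_
    rw [mem_Icc] at hk
    have hkpos : (0 : ℝ) < k := by exact_mod_cast hk.1
    rw [← sum_filter, ← nsmul_eq_mul, ← sum_const]
    refine sum_le_sum fun d hd => ?_
    rw [mem_filter] at hd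
    have hd1 := hD d hd.1
    apply div_le_div_of_nonneg_left (by norm_num) (by positivity)
    have : (2 ^ i : ℝ) ≤ d := by exact_mod_cast hd1.1
    push_cast
    nlinarith
  have h4 : ∑ k ∈ Icc 1 (z ^ K), ((D.filter (fun d => Adm K z d k)).card : ℝ) * (1 / (2 ^ i * k)) ≤
      X / 2 ^ i * (1 + K * Real.log z) := by
    calc ∑ k ∈ Icc 1 (z ^ K), ((D.filter (fun d => Adm K z d k)).card : ℝ) * (1 / (2 ^ i * k)) ≤
        ∑ k ∈ Icc 1 (z ^ K), X / 2 ^ i * ((k : ℝ)⁻¹) := by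
          refine sum_le_sum fun k hk => ?_
          rw [mem_Icc] at hk
          have hkpos : (0 : ℝ) < k := by exact_mod_cast hk.1
          have h5 := (hcon k hk.1 hk.2).le
          have h6 : X / 2 ^ i * ((k : ℝ)⁻¹) = X * (1 / (2 ^ i * k)) := by
            field_simp
          rw [h6]
          exact mul_le_mul_of_nonneg_right h5 (by positivity)
      _ = X / 2 ^ i * ((harmonic (z ^ K) : ℚ) : ℝ) := by
          rw [← mul_sum, harmonic_eq_sum_Icc]
          push_cast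
          rfl
      _ ≤ X / 2 ^ i * (1 + K * Real.log z) := by
          refine mul_le_mul_of_nonneg_left ?_ (by positivity)
          refine (harmonic_le_one_add_log _).trans ?_
          push_cast
          rw [Real.log_pow]
  have h5 : c * D.card / (2 ^ (i + 1) : ℝ) ≤ X / 2 ^ i * (1 + K * Real.log z) :=
    h1.trans (h2.trans (h3.trans h4))
  have h6 : 1 + K * Real.log z ≤ 2 * (K * Real.log z) := by nlinarith
  have h7 : X / 2 ^ i * (1 + K * Real.log z) ≤ X / 2 ^ i * (2 * (K * Real.log z)) :=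
    mul_le_mul_of_nonneg_left h6 (by positivity)
  have h8 : X / 2 ^ i * (2 * (K * Real.log z)) = c * D.card / (2 ^ (i + 1) : ℝ) := by
    rw [hX, pow_succ]
    field_simp
    ring
  -- strictness: use one k
  have hone : (1 : ℕ) ∈ Icc 1 (z ^ K) := by
    rw [mem_Icc]; exact ⟨le_rfl, Nat.one_le_pow _ _ (by omega)⟩
  have h9 : ∑ k ∈ Icc 1 (z ^ K), ((D.filter (fun d => Adm K z d k)).card : ℝ) * (1 / (2 ^ i * k)) <
      X / 2 ^ i * (1 + K * Real.log z) := by
    calc ∑ k ∈ Icc 1 (z ^ K), ((D.filter (fun d => Adm K z d k)).card : ℝ) * (1 / (2 ^ i * k)) <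
        ∑ k ∈ Icc 1 (z ^ K), X / 2 ^ i * ((k : ℝ)⁻¹) := by
          have hall : ∀ k ∈ Icc 1 (z ^ K),
              ((D.filter (fun d => Adm K z d k)).card : ℝ) * (1 / (2 ^ i * k)) <
                X / 2 ^ i * ((k : ℝ)⁻¹) := by
            intro k hk
            rw [mem_Icc] at hk
            have hkpos : (0 : ℝ) < k := by exact_mod_cast hk.1
            have h5 := (hcon k hk.1 hk.2)
            have h6 : X / 2 ^ i * ((k : ℝ)⁻¹) = X * (1 / (2 ^ i * k)) := by
              field_simp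
            rw [h6]
            exact mul_lt_mul_of_pos_right h5 (by positivity)
          exact sum_lt_sum_of_nonempty ⟨1, hone⟩ hall
      _ = X / 2 ^ i * ((harmonic (z ^ K) : ℚ) : ℝ) := by
          rw [← mul_sum, harmonic_eq_sum_Icc]
          push_cast
          rfl
      _ ≤ X / 2 ^ i * (1 + K * Real.log z) := by
          refine mul_le_mul_of_nonneg_left ?_ (by positivity)
          refine (harmonic_le_one_add_log _).trans ?_
          push_cast
          rw [Real.log_pow]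
  linarith [h1.trans (h2.trans h3)]

theorem prod_injOn (R : Finset ℕ) (hR : ∀ p ∈ R, p.Prime) :
    Set.InjOn (fun s : Finset ℕ => ∏ p ∈ s, p) (R.powerset : Set (Finset ℕ)) := by
  intro s hs t ht hst
  have hs' : ∀ p ∈ s, p.Prime := fun p hp => hR p ((mem_powerset.1 (mem_coe.1 hs)) hp)
  have ht' : ∀ p ∈ t, p.Prime := fun p hp => hR p ((mem_powerset.1 (mem_coe.1 ht)) hp)
  have h1 := Nat.primeFactors_prod hs'
  have h2 := Nat.primeFactors_prod ht'
  simp only at hst
  rw [← h1, ← h2, hst]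

open Classical in
/-- many divisors -/
theorem exists_many {K : ℕ} {c : ℝ} {z q₁ : ℕ} (hK : 1 ≤ K) (hc : 0 < c) (hz : 3 ≤ z)
    (hq₁ : 2 ≤ q₁) (h : LinH K c z q₁) (R : Finset ℕ) (hR : ∀ p ∈ R, p.Prime)
    (hRne : R.Nonempty) (X : ℕ) (hRX : ∀ p ∈ R, p ≤ X) (hX : 1 ≤ X) (hXz : X ^ (32 * R.card) ≤ z) :
    ∃ k : ℕ, 1 ≤ k ∧ k ≤ z ^ K ∧ ∃ D : Finset ℕ, (∀ d ∈ D, d ∣ ∏ p ∈ R, p) ∧
      (∀ d ∈ D, Adm K z d k) ∧ D.card ≤ 2 ^ R.card ∧
      c * 2 ^ R.card / (24 * K * (Real.log z) ^ 2) ≤ (D.card : ℝ) := by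
  have hKR : (1 : ℝ) ≤ K := by exact_mod_cast hK
  have hzR : (0 : ℝ) < z := by exact_mod_cast (by omega : 0 < z)
  have hlog : (1 : ℝ) ≤ Real.log z := by
    rw [Real.le_log_iff_exp_le hzR]
    have h5 : Real.exp 1 < 2.7182818286 := Real.exp_one_lt_d9
    have h6 : (3 : ℝ) ≤ (z : ℝ) := by exact_mod_cast hz
    linarith
  set r := q₁.minFac with hr
  have hrp : r.Prime := Nat.minFac_prime (by omega)
  have hrd : r ∣ q₁ := Nat.minFac_dvd q₁
  set R' := R.erase r with hR'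
  have hR'R : R' ⊆ R := erase_subset _ _
  have hR'p : ∀ p ∈ R', p.Prime := fun p hp => hR p (hR'R hp)
  set DD := R'.powerset.image (fun s : Finset ℕ => ∏ p ∈ s, p) with hDD
  have hDDcard : DD.card = 2 ^ R'.card := by
    rw [hDD, card_image_of_injOn (prod_injOn R' hR'p), card_powerset]
  have hR'card : R.card ≤ R'.card + 1 := by
    have := Finset.pred_card_le_card_erase (s := R) (a := r)
    rw [← hR'] at this
    omega
  have hDDdvd : ∀ d ∈ DD, d ∣ ∏ p ∈ R, p := by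
    intro d hd
    obtain ⟨s, hs, rfl⟩ := mem_image.1 hd
    exact prod_dvd_prod_of_subset _ _ _ ((mem_powerset.1 hs).trans hR'R)
  have hprodpos : 0 < ∏ p ∈ R, p := prod_pos fun p hp => (hR p hp).pos
  have hprodle : ∏ p ∈ R, p ≤ X ^ R.card := by
    calc ∏ p ∈ R, p ≤ ∏ _p ∈ R, X := prod_le_prod' fun p hp => hRX p hp
      _ = X ^ R.card := by rw [prod_const]
  have hDDle : ∀ d ∈ DD, d ^ 32 ≤ z := by
    intro d hd
    have h1 : d ≤ X ^ R.card := (Nat.le_of_dvd hprodpos (hDDdvd d hd)).trans hprodle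
    calc d ^ 32 ≤ (X ^ R.card) ^ 32 := Nat.pow_le_pow_left h1 32
      _ = X ^ (32 * R.card) := by rw [← pow_mul, mul_comm]
      _ ≤ z := hXz
  have hDDpos : ∀ d ∈ DD, 0 < d := fun d hd => Nat.pos_of_dvd_of_pos (hDDdvd d hd) hprodpos
  have hDDq : ∀ d ∈ DD, ¬ q₁ ∣ d ^ 2 := by
    intro d hd hcon
    have h1 : r ∣ d := hrp.dvd_of_dvd_pow (hrd.trans hcon)
    obtain ⟨s, hs, rfl⟩ := mem_image.1 hd
    obtain ⟨p, hp, hrp'⟩ := (hrp.prime.dvd_finset_prod_iff _).1 h1
    have hpR' : p ∈ R' := mem_powerset.1 hs hp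
    have : r = p := (Nat.prime_dvd_prime_iff_eq hrp (hR'p p hpR')).1 hrp'
    rw [← this, hR'] at hpR'
    exact (notMem_erase r R) hpR'
  -- pigeonhole over the dyadic ranges
  set W := Nat.log 2 z + 1 with hW
  have hmaps : ∀ d ∈ DD, Nat.log 2 d ∈ range W := by
    intro d hd
    rw [mem_range, hW, Nat.lt_succ_iff]
    apply Nat.log_mono_right
    calc d ≤ d ^ 32 := Nat.le_self_pow (by norm_num) d
      _ ≤ z := hDDle d hd
  obtain ⟨i, _, hi⟩ := exists_le_card_fiber_of_nsmul_le_card_of_maps_to (M := ℝ)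
    (b := (DD.card : ℝ) / W) hmaps ⟨0, by simp [hW]⟩ (by
      rw [card_range, nsmul_eq_mul]
      have hWpos : (0 : ℝ) < W := by rw [hW]; positivity
      rw [mul_div_cancel₀ _ hWpos.ne'])
  set D1 := DD.filter (fun d => Nat.log 2 d = i) with hD1
  have hWR : (W : ℝ) ≤ 3 * Real.log z := by
    have h1 : ((Nat.log 2 z : ℕ) : ℝ) * Real.log 2 ≤ Real.log z := by
      rw [← Real.log_pow]
      apply Real.log_le_log (by positivity)
      exact_mod_cast Nat.pow_log_le_self 2 (by omega)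
    have h2 : (0.6931471803 : ℝ) < Real.log 2 := Real.log_two_gt_d9
    rw [hW]
    push_cast
    have h3 : (0 : ℝ) ≤ (Nat.log 2 z : ℕ) := by positivity
    nlinarith
  have hWpos : (0 : ℝ) < W := by rw [hW]; positivity
  have hDDR : (2 : ℝ) ^ R.card / 2 ≤ DD.card := by
    rw [hDDcard]
    push_cast
    rw [div_le_iff₀ (by norm_num), ← pow_succ]
    exact pow_le_pow_right₀ (by norm_num) hR'card
  have hD1card : (2 : ℝ) ^ R.card / (6 * Real.log z) ≤ D1.card := by
    refine le_trans ?_ hi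
    rw [div_le_div_iff₀ (by positivity) hWpos]
    have h1 : (0 : ℝ) < 2 ^ R.card := by positivity
    have h2 : (2 : ℝ) ^ R.card ≤ 2 * DD.card := by linarith
    calc (2 : ℝ) ^ R.card * W ≤ (2 * DD.card) * (3 * Real.log z) :=
          mul_le_mul h2 hWR hWpos.le (by positivity)
      _ = DD.card * (6 * Real.log z) := by ring
  have hD1ne : D1.Nonempty := by
    rw [← card_pos]
    have : (0 : ℝ) < D1.card := lt_of_lt_of_le (by positivity) hD1card
    exact_mod_cast this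
  have hD1DD : D1 ⊆ DD := filter_subset _ _
  obtain ⟨k, hk1, hk2, hk3⟩ := exists_k (i := i) hK hc hz h hD1ne (by
      intro d hd
      rw [hD1, mem_filter] at hd
      have hd0 := hDDpos d hd.1
      rw [← hd.2]
      exact ⟨Nat.pow_log_le_self 2 hd0.ne', Nat.lt_pow_succ_log_self (by norm_num) d⟩)
    (fun d hd => hDDle d (hD1DD hd)) (fun d hd => hDDq d (hD1DD hd))
  refine ⟨k, hk1, hk2, D1.filter (fun d => Adm K z d k), ?_, ?_, ?_, ?_⟩
  · intro d hd
    exact hDDdvd d (hD1DD (mem_filter.1 hd).1)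
  · intro d hd
    exact (mem_filter.1 hd).2
  · calc (D1.filter (fun d => Adm K z d k)).card ≤ DD.card :=
          card_le_card ((filter_subset _ _).trans hD1DD)
      _ = 2 ^ R'.card := hDDcard
      _ ≤ 2 ^ R.card := Nat.pow_le_pow_right (by norm_num) (card_le_card hR'R)
  · refine le_trans ?_ hk3
    rw [div_le_div_iff₀ (by positivity) (by positivity)]
    have h1 : (2 : ℝ) ^ R.card ≤ D1.card * (6 * Real.log z) := by
      rw [div_le_iff₀ (by positivity)] at hD1card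
      exact hD1card
    calc c * 2 ^ R.card * (4 * K * Real.log z) ≤
        c * (D1.card * (6 * Real.log z)) * (4 * K * Real.log z) := by
          apply mul_le_mul_of_nonneg_right _ (by positivity)
          exact mul_le_mul_of_nonneg_left h1 hc.le
      _ = c * D1.card * (24 * K * Real.log z ^ 2) := by ring

end Pool.Agent.H588_CM
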