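import Mathlib

/-!
A zero-sum theorem for vectors of integers modulo `m`, from the Chevalley–Warning theorem.
-/

set_option autoImplicit false

namespace Pool.Agent.H588_CM

open Finset MvPolynomial

/-- every family of at least `l` integer vectors indexed by `κ` has a nonempty subfamily whose sum
is divisible by `m` in every coordinate -/
def ZS (κ : Type) (m l : ℕ) : Prop :=
  ∀ (ι : Type) [Fintype ι] [DecidableEq ι] (v : ι → κ → ℤ), l ≤ Fintype.card ι →
    ∃ t : Finset ι, t.Nonempty ∧ ∀ j, (m : ℤ) ∣ ∑ i ∈ t, v i j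

theorem ZS.mono {κ : Type} {m l l' : ℕ} (h : ZS κ m l) (hl : l ≤ l') : ZS κ m l' := by
  intro ι _ _ v hv
  exact h ι v (hl.trans hv)

theorem zs_one (κ : Type) : ZS κ 1 1 := by
  intro ι _ _ v hv
  have : 0 < Fintype.card ι := by omega
  obtain ⟨i⟩ := Fintype.card_pos_iff.1 this
  exact ⟨{i}, by simp, fun j => by simp⟩

theorem ZS.mul {κ : Type} {m l m' l' : ℕ} (h : ZS κ m l) (h' : ZS κ m' l') :
    ZS κ (m * m') (l' * l) := by
  classical
  intro ι _ _ v hv
  have hc : Fintype.card (Fin l' × Fin l) ≤ Fintype.card ι := by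
    simpa [Fintype.card_prod, Fintype.card_fin] using hv
  obtain ⟨e⟩ := Function.Embedding.nonempty_of_card_le hc
  have h1 : ∀ i : Fin l', ∃ t : Finset (Fin l), t.Nonempty ∧
      ∀ j, (m : ℤ) ∣ ∑ a ∈ t, v (e (i, a)) j := by
    intro i
    exact h (Fin l) (fun a => v (e (i, a))) (by simp)
  choose t ht htd using h1
  choose w hw using htd
  obtain ⟨T, hT, hTd⟩ := h' (Fin l') w (by simp)
  refine ⟨(T.sigma t).image (fun x => e (x.1, x.2)), ?_, ?_⟩
  · obtain ⟨i, hi⟩ := hT
    obtain ⟨a, ha⟩ := ht i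
    exact ⟨e (i, a), mem_image.2 ⟨⟨i, a⟩, by simp [hi, ha], rfl⟩⟩
  · intro j
    rw [sum_image, sum_sigma]
    · have h2 : ∑ i ∈ T, ∑ a ∈ t i, v (e (i, a)) j = (m : ℤ) * ∑ i ∈ T, w i j := by
        rw [mul_sum]
        exact sum_congr rfl fun i _ => hw i j
      rw [h2]
      push_cast
      exact mul_dvd_mul_left _ (hTd j)
    · rintro ⟨i, a⟩ _ ⟨i', a'⟩ _ hh
      have h3 := e.injective hh
      simp only [Prod.mk.injEq] at h3
      obtain ⟨rfl, rfl⟩ := h3
      rfl

theorem zs_prime (κ : Type) [Fintype κ] {p : ℕ} (hp : p.Prime) :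
    ZS κ p (Fintype.card κ * (p - 1) + 1) := by
  classical
  intro ι _ _ v hv
  have : Fact p.Prime := ⟨hp⟩
  set f : κ → MvPolynomial ι (ZMod p) := fun j => ∑ i, C ((v i j : ZMod p)) * X i ^ (p - 1) with hf
  have hdeg : ∀ j, (f j).totalDegree ≤ p - 1 := by
    intro j
    refine totalDegree_finsetSum_le ?_
    intro i _
    refine (totalDegree_mul _ _).trans ?_
    rw [totalDegree_C, totalDegree_X_pow, zero_add]
  have hsum : ∑ j : κ, (f j).totalDegree < Fintype.card ι := by
    calc ∑ j : κ, (f j).totalDegree ≤ ∑ _j : κ, (p - 1) := sum_le_sum fun j _ => hdeg j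
      _ = Fintype.card κ * (p - 1) := by simp
      _ < Fintype.card ι := by omega
  have hdvd := char_dvd_card_solutions_of_fintype_sum_lt (p := p) (f := f) hsum
  have h0 : ∀ j, eval (0 : ι → ZMod p) (f j) = 0 := by
    intro j
    have hp1 : p - 1 ≠ 0 := by have := hp.two_le; omega
    simp [hf, map_sum, hp1]
  have hpos : 0 < Fintype.card {x : ι → ZMod p // ∀ j, eval x (f j) = 0} :=
    Fintype.card_pos_iff.2 ⟨⟨0, h0⟩⟩
  have h1 : 1 < Fintype.card {x : ι → ZMod p // ∀ j, eval x (f j) = 0} :=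
    lt_of_lt_of_le hp.one_lt (Nat.le_of_dvd hpos hdvd)
  obtain ⟨⟨x, hx⟩, hne⟩ := Fintype.exists_ne_of_one_lt_card h1 ⟨0, h0⟩
  have hx0 : x ≠ 0 := fun h => hne (Subtype.ext h)
  refine ⟨univ.filter (fun i => x i ≠ 0), ?_, ?_⟩
  · by_contra hcon
    rw [not_nonempty_iff_eq_empty, filter_eq_empty_iff] at hcon
    apply hx0
    funext i
    by_contra h2
    exact hcon (mem_univ i) h2
  · intro j
    rw [← ZMod.intCast_zmod_eq_zero_iff_dvd]
    have h3 := hx j
    simp only [hf, map_sum, map_mul, eval_C, map_pow, eval_X] at h3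
    push_cast
    rw [sum_filter]
    refine Eq.trans ?_ h3
    refine sum_congr rfl fun i _ => ?_
    by_cases hi : x i = 0
    · have hp1 : p - 1 ≠ 0 := by have := hp.two_le; omega
      simp [hi, hp1]
    · rw [if_pos hi, ZMod.pow_card_sub_one_eq_one hi, mul_one]

theorem zs_main (κ : Type) [Fintype κ] [Nonempty κ] (m : ℕ) (hm : m ≠ 0) :
    ZS κ m (Fintype.card κ ^ (Nat.primeFactorsList m).length * m) := by
  have hk : 1 ≤ Fintype.card κ := Fintype.card_pos
  induction m using Nat.recOnMul with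
  | zero => exact absurd rfl hm
  | one => simpa using zs_one κ
  | prime p hp =>
    refine (zs_prime κ hp).mono ?_
    rw [Nat.primeFactorsList_prime hp]
    have := hp.one_lt
    obtain ⟨q, rfl⟩ : ∃ q, p = q + 1 := ⟨p - 1, by omega⟩
    simp only [List.length_singleton, pow_one, Nat.add_sub_cancel]
    nlinarith
  | mul a b iha ihb =>
    have ha : a ≠ 0 := fun h => hm (by simp [h])
    have hb : b ≠ 0 := fun h => hm (by simp [h])
    have h1 := (iha ha).mul (ihb hb)
    refine h1.mono (le_of_eq ?_)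
    have h2 : (Nat.primeFactorsList (a * b)).length =
        (Nat.primeFactorsList a).length + (Nat.primeFactorsList b).length := by
      rw [(Nat.perm_primeFactorsList_mul ha hb).length_eq, List.length_append]
    rw [h2, pow_add]
    ring

/-- the number of prime factors with multiplicity -/
theorem length_le_log (m : ℕ) (hm : m ≠ 0) : 2 ^ (Nat.primeFactorsList m).length ≤ m := by
  conv_rhs => rw [← Nat.prod_primeFactorsList hm]
  have h : ∀ l : List ℕ, (∀ p ∈ l, 2 ≤ p) → 2 ^ l.length ≤ l.prod := by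
    intro l
    induction l with
    | nil => simp
    | cons a l ih =>
      intro h
      rw [List.length_cons, List.prod_cons, pow_succ, mul_comm]
      exact Nat.mul_le_mul (h a (by simp)) (ih fun p hp => h p (by simp [hp]))
  exact h _ fun p hp => (Nat.prime_of_mem_primeFactorsList hp).two_le

theorem prod_zpow_sum {G : Type*} [CommGroup G] {ι : Type*} (t : Finset ι) (g : G) (f : ι → ℤ) :
    ∏ i ∈ t, g ^ (f i) = g ^ (∑ i ∈ t, f i) := by
  classical
  induction t using Finset.induction_on with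
  | empty => simp
  | insert a s ha ih => rw [prod_insert ha, sum_insert ha, zpow_add, ih]

/-- zero-sum theorem in the multiplicative group modulo a finite set of primes -/
theorem mul_zs (Q : Finset ℕ) (hQ : ∀ q ∈ Q, q.Prime) (hne : Q.Nonempty) (m : ℕ) (hm : m ≠ 0)
    (hQm : ∀ q ∈ Q, (q - 1) ∣ m) (S : Finset ℕ) (hS : ∀ a ∈ S, ∀ q ∈ Q, a.Coprime q)
    (hcard : Q.card ^ (Nat.primeFactorsList m).length * m ≤ S.card) :
    ∃ T ⊆ S, T.Nonempty ∧ ∀ q ∈ Q, (∏ a ∈ T, a) ≡ 1 [MOD q] := by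
  classical
  have : Nonempty Q := ⟨⟨hne.choose, hne.choose_spec⟩⟩
  have hZ := zs_main Q m hm
  rw [Fintype.card_coe] at hZ
  -- discrete logarithms
  have h1 : ∀ (a : S) (q : Q), ∃ n : ℤ, ∀ (hq : Fact (q : ℕ).Prime), 
      (ZMod.unitOfCoprime (a : ℕ) (hS a a.2 q q.2)) =
        (IsCyclic.exists_generator (α := (ZMod (q : ℕ))ˣ)).choose ^ n := by
    intro a q
    have : Fact (q : ℕ).Prime := ⟨hQ q q.2⟩
    obtain ⟨n, hn⟩ := Subgroup.mem_zpowers_iff.1
      ((IsCyclic.exists_generator (α := (ZMod (q : ℕ))ˣ)).choose_spec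
        (ZMod.unitOfCoprime (a : ℕ) (hS a a.2 q q.2)))
    exact ⟨n, fun _ => hn.symm⟩
  choose v hv using h1
  obtain ⟨t, ht, htd⟩ := hZ S v (by rw [Fintype.card_coe]; exact hcard)
  refine ⟨t.image Subtype.val, ?_, ht.image _, ?_⟩
  · intro x hx
    obtain ⟨y, _, rfl⟩ := mem_image.1 hx
    exact y.2
  · intro q hq
    have : Fact q.Prime := ⟨hQ q hq⟩
    rw [prod_image (fun a _ b _ h => Subtype.ext h)]
    rw [← ZMod.natCast_eq_natCast_iff]
    push_cast
    have h2 : ∀ a : S, ((a : ℕ) : ZMod q) =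
        ((IsCyclic.exists_generator (α := (ZMod q)ˣ)).choose ^ (v a ⟨q, hq⟩) : (ZMod q)ˣ) := by
      intro a
      rw [← hv a ⟨q, hq⟩ ⟨hQ q hq⟩]
      rfl
    rw [prod_congr rfl fun a _ => h2 a]
    rw [← Units.coe_prod, prod_zpow_sum]
    obtain ⟨w, hw⟩ := htd ⟨q, hq⟩
    obtain ⟨r, hr⟩ := hQm q hq
    rw [hw, hr, Nat.cast_mul]
    rw [mul_assoc, zpow_mul]
    have h3 : ((IsCyclic.exists_generator (α := (ZMod q)ˣ)).choose) ^ ((q - 1 : ℕ) : ℤ) = 1 := by
      rw [zpow_natCast, ← ZMod.card_units q, pow_card_eq_one]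
    rw [h3, one_zpow, Units.val_one]

end Pool.Agent.H588_CM
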