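import Pool.Agent.Y835.SC.Page
import Pool.Agent.H588_CM.ZeroSum
import Pool.Agent.H588_CM.Lin

/-!
Carmichael numbers all of whose prime factors are large compared with their number.
-/

set_option autoImplicit false

namespace Pool.Agent.H588_CM

open Finset Filter

/-- a set of `ρ` primes which are at most `2 ^ ρ` -/
theorem primes_set (ρ : ℕ) : ∃ R : Finset ℕ, R.card = ρ ∧ ∀ p ∈ R, p.Prime ∧ p ≤ 2 ^ ρ := by
  induction ρ with
  | zero => exact ⟨∅, by simp, by simp⟩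
  | succ ρ ih =>
    obtain ⟨R, hR, hRp⟩ := ih
    obtain ⟨p, hp, h1, h2⟩ := Nat.exists_prime_lt_and_le_two_mul (2 ^ ρ) (by positivity)
    have hpR : p ∉ R := fun h => absurd (hRp p h).2 (by omega)
    refine ⟨insert p R, by rw [card_insert_of_notMem hpR, hR], ?_⟩
    intro q hq
    rcases mem_insert.1 hq with rfl | hq
    · exact ⟨hp, by rw [pow_succ]; omega⟩
    · exact ⟨(hRp q hq).1, (hRp q hq).2.trans (Nat.pow_le_pow_right (by norm_num) (by omega))⟩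

theorem numeric_T (K : ℕ) (c ε : ℝ) (hc : 0 < c) (hε : 0 < ε) (hK : 1 ≤ K) (N : ℕ) :
    ∃ T0 : ℕ, ∀ T : ℕ, T0 ≤ T → 1 ≤ T ∧ N ≤ T ∧ (1024 * K * (T : ℝ) ^ 2) ^ 4 ≤ c ^ 2 * 2 ^ T ∧
      c / (1024 * K * (T : ℝ) ^ 2) ^ 2 < ε := by
  have hKR : (1 : ℝ) ≤ K := by exact_mod_cast hK
  have h1 : ∀ᶠ T : ℕ in atTop, (1024 * K * (T : ℝ) ^ 2) ^ 4 ≤ c ^ 2 * 2 ^ T := by
    have h := (tendsto_pow_const_div_const_pow_of_one_lt 8 (r := (2 : ℝ)) (by norm_num))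
    have h2 : ∀ᶠ T : ℕ in atTop, (T : ℝ) ^ 8 / 2 ^ T < c ^ 2 / (1024 * K) ^ 4 :=
      h.eventually (gt_mem_nhds (by positivity))
    filter_upwards [h2] with T hT
    rw [div_lt_div_iff₀ (by positivity) (by positivity)] at hT
    calc (1024 * K * (T : ℝ) ^ 2) ^ 4 = (T : ℝ) ^ 8 * (1024 * K) ^ 4 := by ring
      _ ≤ c ^ 2 * 2 ^ T := hT.le
  have h3 : ∀ᶠ T : ℕ in atTop, c / (1024 * K * (T : ℝ) ^ 2) ^ 2 < ε := by
    have h4 : ∀ᶠ T : ℕ in atTop, c / ε < (T : ℝ) :=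
      (tendsto_natCast_atTop_atTop (R := ℝ)).eventually (eventually_gt_atTop (c / ε))
    filter_upwards [h4, eventually_ge_atTop 1] with T hT hT1
    have hT1R : (1 : ℝ) ≤ T := by exact_mod_cast hT1
    rw [div_lt_iff₀ hε] at hT
    rw [div_lt_iff₀ (by positivity)]
    have h5 : (T : ℝ) ≤ (1024 * K * (T : ℝ) ^ 2) ^ 2 := by
      have h6 : (1 : ℝ) ≤ 1024 * K := by linarith
      have h7 : (T : ℝ) ≤ (T : ℝ) ^ 4 := by
        calc (T : ℝ) = (T : ℝ) ^ 1 := (pow_one _).symm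
          _ ≤ (T : ℝ) ^ 4 := pow_le_pow_right₀ hT1R (by norm_num)
      have h8 : (1 : ℝ) ≤ (1024 * K) ^ 2 := one_le_pow₀ h6
      calc (T : ℝ) ≤ 1 * (T : ℝ) ^ 4 := by rw [one_mul]; exact h7
        _ ≤ (1024 * K) ^ 2 * (T : ℝ) ^ 4 := mul_le_mul_of_nonneg_right h8 (by positivity)
        _ = (1024 * K * (T : ℝ) ^ 2) ^ 2 := by ring
    nlinarith
  obtain ⟨T0, hT0⟩ := eventually_atTop.1 ((h1.and h3).and
    ((eventually_ge_atTop 1).and (eventually_ge_atTop N)))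
  exact ⟨T0, fun T hT => ⟨(hT0 T hT).2.1, (hT0 T hT).2.2, (hT0 T hT).1.1, (hT0 T hT).1.2⟩⟩

theorem numeric_rho (K : ℕ) (c : ℝ) (hc : 0 < c) (T0 z0 : ℕ) :
    ∃ ρ : ℕ, 1 ≤ ρ ∧ 132 * K + 2 ≤ ρ ^ 3 ∧ z0 ≤ 2 ^ (32 * ρ ^ 2) ∧
      (T0 : ℝ) ≤ c * 2 ^ ρ / (32 * (ρ : ℝ) ^ 2) ^ 2 ∧
      (ρ : ℝ) ^ 6 ≤ c * 2 ^ ρ / (32 * (ρ : ℝ) ^ 2) ^ 2 := by
  have h1 : ∀ᶠ ρ : ℕ in atTop, (ρ : ℝ) ^ 6 ≤ c * 2 ^ ρ / (32 * (ρ : ℝ) ^ 2) ^ 2 := by
    have h := (tendsto_pow_const_div_const_pow_of_one_lt 10 (r := (2 : ℝ)) (by norm_num))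
    have h2 : ∀ᶠ T : ℕ in atTop, (T : ℝ) ^ 10 / 2 ^ T < c / 1024 :=
      h.eventually (gt_mem_nhds (by positivity))
    filter_upwards [h2, eventually_ge_atTop 1] with T hT hT1
    have hT1R : (1 : ℝ) ≤ T := by exact_mod_cast hT1
    rw [div_lt_div_iff₀ (by positivity) (by positivity)] at hT
    rw [le_div_iff₀ (by positivity)]
    calc (T : ℝ) ^ 6 * (32 * (T : ℝ) ^ 2) ^ 2 = (T : ℝ) ^ 10 * 1024 := by ring
      _ ≤ c * 2 ^ T := hT.le
  have h3 : ∀ᶠ ρ : ℕ in atTop, T0 + z0 + 132 * K + 2 ≤ ρ := eventually_ge_atTop _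
  obtain ⟨ρ, h4, h5⟩ := (h1.and h3).exists
  have hρ1 : 1 ≤ ρ := by omega
  have hρR : (1 : ℝ) ≤ ρ := by exact_mod_cast hρ1
  refine ⟨ρ, hρ1, ?_, ?_, ?_, h4⟩
  · have : ρ ≤ ρ ^ 3 := Nat.le_self_pow (by norm_num) ρ
    omega
  · have h6 : ρ < 2 ^ ρ := Nat.lt_two_pow_self
    have h7 : 2 ^ ρ ≤ 2 ^ (32 * ρ ^ 2) := by
      apply Nat.pow_le_pow_right (by norm_num)
      nlinarith
    omega
  · refine le_trans ?_ h4
    have h8 : (T0 : ℝ) ≤ ρ := by exact_mod_cast (by omega : T0 ≤ ρ)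
    have h9 : (ρ : ℝ) ≤ (ρ : ℝ) ^ 6 := by
      calc (ρ : ℝ) = (ρ : ℝ) ^ 1 := (pow_one _).symm
        _ ≤ (ρ : ℝ) ^ 6 := pow_le_pow_right₀ hρR (by norm_num)
    linarith

/-- squarefree numbers `n` with `p - 1 ∣ n - 1` for all prime factors `p`, whose prime factors are
all large compared with their number -/
theorem exists_carm (ε : ℝ) (hε : 0 < ε) (N : ℕ) :
    ∃ U : Finset ℕ, (∀ p ∈ U, p.Prime) ∧ 2 ≤ U.card ∧ (∀ p ∈ U, N < p) ∧
      (∀ p ∈ U, (p - 1) ∣ (∏ p ∈ U, p) - 1) ∧ ∀ p ∈ U, (U.card : ℝ) < ε * p := by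
  classical
  obtain ⟨K, c, hK, hc, z0, hpage⟩ := Pool.Agent.Y835.SC.page
  have hKR : (1 : ℝ) ≤ K := by exact_mod_cast hK
  set c₂ : ℝ := c / (24 * K) with hc₂
  have hc₂pos : 0 < c₂ := by positivity
  obtain ⟨T0, hT0⟩ := numeric_T K c₂ ε hc₂pos hε hK N
  obtain ⟨ρ, hρ1, hρ3, hρz, hρT, hρ6⟩ := numeric_rho K c₂ hc₂pos T0 z0
  have hρR : (1 : ℝ) ≤ ρ := by exact_mod_cast hρ1
  obtain ⟨R, hRcard, hRp⟩ := primes_set ρ
  have hRne : R.Nonempty := by rw [← card_pos, hRcard]; omega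
  -- stage one
  set z : ℕ := 2 ^ (32 * ρ ^ 2) with hz
  have hz3 : 3 ≤ z := by
    rw [hz]
    calc 3 ≤ 2 ^ 32 := by norm_num
      _ ≤ 2 ^ (32 * ρ ^ 2) := Nat.pow_le_pow_right (by norm_num) (by nlinarith)
  obtain ⟨q₁, hq₁, hlin⟩ := hpage z hρz
  obtain ⟨k, hk1, hkz, D, hDdvd, hDadm, hDcard, hDlow⟩ := exists_many hK hc hz3 hq₁ hlin R
    (fun p hp => (hRp p hp).1) hRne (2 ^ ρ) (fun p hp => (hRp p hp).2) Nat.one_le_two_pow (by
      rw [hRcard, ← pow_mul, hz]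
      exact le_of_eq (by ring))
  rw [hRcard] at hDcard hDlow
  set T := D.card with hT
  have hlogz : Real.log z = 32 * (ρ : ℝ) ^ 2 * Real.log 2 := by
    rw [hz]; push_cast; rw [Real.log_pow]; push_cast; ring
  have hlog2 : Real.log 2 < 1 := by
    have := Real.log_two_lt_d9; linarith
  have hlog2pos : 0 < Real.log 2 := Real.log_pos (by norm_num)
  have hlogzpos : 0 < Real.log z := by rw [hlogz]; positivity
  have hTlow : c₂ * 2 ^ ρ / (32 * (ρ : ℝ) ^ 2) ^ 2 ≤ T := by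
    refine le_trans ?_ hDlow
    have e1 : c * 2 ^ ρ / (24 * K * Real.log z ^ 2) = c₂ * 2 ^ ρ / Real.log z ^ 2 := by
      rw [hc₂]; field_simp
    rw [e1]
    apply div_le_div_of_nonneg_left (by positivity) (by positivity)
    apply pow_le_pow_left₀ hlogzpos.le
    rw [hlogz]
    nlinarith [sq_nonneg (ρ : ℝ)]
  have hTT0 : T0 ≤ T := by exact_mod_cast hρT.trans hTlow
  have hTρ : ρ ^ 6 ≤ T := by exact_mod_cast hρ6.trans hTlow
  obtain ⟨hT1, hNT, hT4, hTε⟩ := hT0 T hTT0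
  have hT1R : (1 : ℝ) ≤ T := by exact_mod_cast hT1
  have hRprodpos : 0 < ∏ p ∈ R, p := prod_pos fun p hp => (hRp p hp).1.pos
  have hRprodle : ∏ p ∈ R, p ≤ 2 ^ (ρ ^ 2) := by
    calc ∏ p ∈ R, p ≤ ∏ _p ∈ R, 2 ^ ρ := prod_le_prod' fun p hp => (hRp p hp).2
      _ = 2 ^ (ρ ^ 2) := by rw [prod_const, hRcard, ← pow_mul, sq]
  -- the primes of the first stage
  set Q := D.image (fun d => d * k + 1) with hQ
  have hQcard : Q.card = T := by
    rw [hQ, card_image_of_injective]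
    intro a b hab
    have : a * k = b * k := by simpa using hab
    exact Nat.eq_of_mul_eq_mul_right (by omega) this
  have hQp : ∀ q ∈ Q, q.Prime := by
    intro q hq
    obtain ⟨d, hd, rfl⟩ := mem_image.1 hq
    exact (hDadm d hd).1
  have hQle : ∀ q ∈ Q, q ≤ z ^ K := by
    intro q hq
    obtain ⟨d, hd, rfl⟩ := mem_image.1 hq
    exact (hDadm d hd).2.2.1
  set m := k * ∏ p ∈ R, p with hm
  have hmpos : m ≠ 0 := by
    rw [hm]; exact Nat.mul_ne_zero (by omega) hRprodpos.ne'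
  have hQm : ∀ q ∈ Q, (q - 1) ∣ m := by
    intro q hq
    obtain ⟨d, hd, rfl⟩ := mem_image.1 hq
    rw [Nat.add_sub_cancel, hm, mul_comm]
    exact mul_dvd_mul_left k (hDdvd d hd)
  have hQne : Q.Nonempty := by rw [← card_pos, hQcard]; omega
  have hmle : m ≤ 2 ^ (33 * K * ρ ^ 2) := by
    calc m ≤ z ^ K * 2 ^ (ρ ^ 2) := Nat.mul_le_mul hkz hRprodle
      _ = 2 ^ (32 * ρ ^ 2 * K + ρ ^ 2) := by rw [hz, ← pow_mul, ← pow_add]
      _ ≤ 2 ^ (33 * K * ρ ^ 2) := by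
          apply Nat.pow_le_pow_right (by norm_num)
          nlinarith [Nat.zero_le (ρ ^ 2), Nat.mul_le_mul_right (ρ ^ 2) hK]
  set Om := (Nat.primeFactorsList m).length with hOm
  have hOmle : Om ≤ 33 * K * ρ ^ 2 := by
    have h1 := (length_le_log m hmpos).trans hmle
    exact (Nat.pow_le_pow_iff_right (by norm_num)).1 h1
  set l := Q.card ^ Om * m with hl
  have hlle : 2 * l ≤ 2 ^ (1 + 66 * K * ρ ^ 3) := by
    have h1 : Q.card ^ Om ≤ 2 ^ (ρ * (33 * K * ρ ^ 2)) := by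
      rw [hQcard]
      calc T ^ Om ≤ (2 ^ ρ) ^ Om := Nat.pow_le_pow_left hDcard _
        _ = 2 ^ (ρ * Om) := by rw [← pow_mul]
        _ ≤ 2 ^ (ρ * (33 * K * ρ ^ 2)) :=
            Nat.pow_le_pow_right (by norm_num) (Nat.mul_le_mul_left _ hOmle)
    calc 2 * l ≤ 2 * (2 ^ (ρ * (33 * K * ρ ^ 2)) * 2 ^ (33 * K * ρ ^ 2)) :=
          Nat.mul_le_mul_left 2 (Nat.mul_le_mul h1 hmle)
      _ = 2 ^ (1 + (ρ * (33 * K * ρ ^ 2) + 33 * K * ρ ^ 2)) := by
          rw [pow_add, pow_add, pow_one]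
      _ ≤ 2 ^ (1 + 66 * K * ρ ^ 3) := by
          apply Nat.pow_le_pow_right (by norm_num)
          have h2 : 33 * K * ρ ^ 2 * 1 ≤ 33 * K * ρ ^ 2 * ρ := Nat.mul_le_mul_left _ hρ1
          nlinarith
  -- stage two
  set Z : ℕ := (z ^ K) ^ (32 * T) with hZ
  have hZeq : Z = 2 ^ (1024 * ρ ^ 2 * K * T) := by
    rw [hZ, hz, ← pow_mul, ← pow_mul]
    congr 1
    ring
  have hZz : z ≤ Z := by
    rw [hZ, ← pow_mul]
    exact Nat.le_self_pow (by
      have : 0 < K * (32 * T) := by positivity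
      omega) z
  have hZ3 : 3 ≤ Z := hz3.trans hZz
  obtain ⟨q₂, hq₂, hlin2⟩ := hpage Z (hρz.trans hZz)
  obtain ⟨k2, hk21, hk2Z, D2, hD2dvd, hD2adm, hD2card, hD2low⟩ := exists_many hK hc hZ3 hq₂ hlin2 Q
    hQp hQne (z ^ K) hQle (Nat.one_le_pow _ _ (by omega)) (by rw [hQcard])
  rw [hQcard] at hD2low
  have hlogZ : Real.log Z = 1024 * (ρ : ℝ) ^ 2 * K * T * Real.log 2 := by
    rw [hZeq]; push_cast; rw [Real.log_pow]; push_cast; ring
  have hlogZpos : 0 < Real.log Z := by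
    rw [hlogZ]
    positivity
  have hρ2T : (ρ : ℝ) ^ 2 ≤ T := by
    have : ρ ^ 2 ≤ ρ ^ 6 := Nat.pow_le_pow_right hρ1 (by norm_num)
    exact_mod_cast this.trans hTρ
  have hlogZle : Real.log Z ≤ 1024 * K * (T : ℝ) ^ 2 := by
    rw [hlogZ]
    calc 1024 * (ρ : ℝ) ^ 2 * K * T * Real.log 2 ≤ 1024 * (ρ : ℝ) ^ 2 * K * T * 1 :=
          mul_le_mul_of_nonneg_left hlog2.le (by positivity)
      _ = 1024 * K * T * (ρ : ℝ) ^ 2 := by ring
      _ ≤ 1024 * K * T * (T : ℝ) := mul_le_mul_of_nonneg_left hρ2T (by positivity)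
      _ = 1024 * K * (T : ℝ) ^ 2 := by ring
  have hD2low2 : c₂ * 2 ^ T / (1024 * K * (T : ℝ) ^ 2) ^ 2 ≤ D2.card := by
    refine le_trans ?_ hD2low
    have e1 : c * 2 ^ T / (24 * K * Real.log Z ^ 2) = c₂ * 2 ^ T / Real.log Z ^ 2 := by
      rw [hc₂]; field_simp
    rw [e1]
    apply div_le_div_of_nonneg_left (by positivity) (by positivity)
    exact pow_le_pow_left₀ hlogZpos.le hlogZle 2
  have hbig : ((2 * l : ℕ) : ℝ) ≤ c₂ * 2 ^ T / (1024 * K * (T : ℝ) ^ 2) ^ 2 := by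
    have hpos : (0 : ℝ) < (1024 * K * (T : ℝ) ^ 2) ^ 2 := by positivity
    rw [le_div_iff₀ hpos]
    have h1 : ((2 * l : ℕ) : ℝ) ≤ 2 ^ (1 + 66 * K * ρ ^ 3) := by exact_mod_cast hlle
    have h2 : ((2 : ℝ) ^ (1 + 66 * K * ρ ^ 3)) ^ 2 ≤ 2 ^ T := by
      rw [← pow_mul]
      apply pow_le_pow_right₀ (by norm_num)
      have h3 : (132 * K + 2) * ρ ^ 3 ≤ ρ ^ 3 * ρ ^ 3 := Nat.mul_le_mul_right _ hρ3
      have h4 : ρ ^ 3 * ρ ^ 3 = ρ ^ 6 := by ring
      have h5 : 1 ≤ ρ ^ 3 := Nat.one_le_pow _ _ hρ1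
      nlinarith
    have h6 : (((2 * l : ℕ) : ℝ) * (1024 * K * (T : ℝ) ^ 2) ^ 2) ^ 2 ≤ (c₂ * 2 ^ T) ^ 2 := by
      calc (((2 * l : ℕ) : ℝ) * (1024 * K * (T : ℝ) ^ 2) ^ 2) ^ 2
          = ((2 * l : ℕ) : ℝ) ^ 2 * (1024 * K * (T : ℝ) ^ 2) ^ 4 := by ring
        _ ≤ ((2 : ℝ) ^ (1 + 66 * K * ρ ^ 3)) ^ 2 * (c₂ ^ 2 * 2 ^ T) := by
            apply mul_le_mul _ hT4 (by positivity) (by positivity)
            exact pow_le_pow_left₀ (by positivity) h1 2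
        _ ≤ 2 ^ T * (c₂ ^ 2 * 2 ^ T) := mul_le_mul_of_nonneg_right h2 (by positivity)
        _ = (c₂ * 2 ^ T) ^ 2 := by ring
    exact (pow_le_pow_iff_left₀ (by positivity) (by positivity) (by norm_num)).1 h6
  have hlD2 : 2 * l ≤ D2.card := by exact_mod_cast hbig.trans hD2low2
  -- the primes of the second stage
  set P := D2.image (fun d => d * k2 + 1) with hP
  have hPcard : P.card = D2.card := by
    rw [hP, card_image_of_injective]
    intro a b hab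
    have : a * k2 = b * k2 := by simpa using hab
    exact Nat.eq_of_mul_eq_mul_right (by omega) this
  have hPp : ∀ p ∈ P, p.Prime := by
    intro q hq
    obtain ⟨d, hd, rfl⟩ := mem_image.1 hq
    exact (hD2adm d hd).1
  have hPZ : ∀ p ∈ P, Z < p := by
    intro q hq
    obtain ⟨d, hd, rfl⟩ := mem_image.1 hq
    exact (hD2adm d hd).2.1
  have hzKZ : z ^ K ≤ Z := by
    rw [hZ]
    exact Nat.le_self_pow (by omega) _
  have hPQ : ∀ p ∈ P, ∀ q ∈ Q, p.Coprime q := by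
    intro p hp q hq
    rw [Nat.coprime_primes (hPp p hp) (hQp q hq)]
    have h1 := hPZ p hp
    have h2 := hQle q hq
    omega
  obtain ⟨S1, hS1P, hS1c⟩ := exists_subset_card_eq (s := P) (n := l) (by rw [hPcard]; omega)
  obtain ⟨S2, hS2P, hS2c⟩ := exists_subset_card_eq (s := P \ S1) (n := l) (by
    rw [card_sdiff_of_subset hS1P, hPcard, hS1c]; omega)
  have hS2P' : S2 ⊆ P := hS2P.trans sdiff_subset
  obtain ⟨U1, hU1S, hU1ne, hU1⟩ := mul_zs Q hQp hQne m hmpos hQm S1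
    (fun a ha => hPQ a (hS1P ha)) (by rw [hS1c])
  obtain ⟨U2, hU2S, hU2ne, hU2⟩ := mul_zs Q hQp hQne m hmpos hQm S2
    (fun a ha => hPQ a (hS2P' ha)) (by rw [hS2c])
  have hdisj : Disjoint U1 U2 := by
    rw [disjoint_left]
    intro a ha1 ha2
    exact (Finset.mem_sdiff.1 (hS2P (hU2S ha2))).2 (hU1S ha1)
  set U := U1 ∪ U2 with hU
  have hUP : U ⊆ P := union_subset (hU1S.trans hS1P) (hU2S.trans hS2P')
  have hUcard : U.card = U1.card + U2.card := card_union_of_disjoint hdisj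
  have hU1c := hU1ne.card_pos
  have hU2c := hU2ne.card_pos
  have hUle : U.card ≤ 2 * l := by
    have h1 := card_le_card hU1S
    have h2 := card_le_card hU2S
    omega
  have hUprod : ∏ p ∈ U, p = (∏ p ∈ U1, p) * ∏ p ∈ U2, p := prod_union hdisj
  have hUQ : ∀ q ∈ Q, (∏ p ∈ U, p) ≡ 1 [MOD q] := by
    intro q hq
    rw [hUprod]
    simpa using (hU1 q hq).mul (hU2 q hq)
  have hnpos : 1 ≤ ∏ p ∈ U, p := prod_pos fun p hp => (hPp p (hUP hp)).pos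
  have hQdvd : (∏ q ∈ Q, q) ∣ (∏ p ∈ U, p) - 1 := by
    apply Finset.prod_primes_dvd
    · intro q hq
      exact (hQp q hq).prime
    · intro q hq
      exact (Nat.modEq_iff_dvd' hnpos).1 (hUQ q hq).symm
  have hk2dvd : k2 ∣ (∏ p ∈ U, p) - 1 := by
    rw [← Nat.modEq_iff_dvd' hnpos]
    refine Nat.ModEq.symm ?_
    have h1 : ∀ p ∈ U, p ≡ 1 [MOD k2] := by
      intro p hp
      obtain ⟨d, hd, rfl⟩ := mem_image.1 (hUP hp)
      simp [Nat.ModEq]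
    rw [← ZMod.natCast_eq_natCast_iff]
    push_cast
    apply prod_eq_one
    intro p hp
    have := (ZMod.natCast_eq_natCast_iff _ _ _).2 (h1 p hp)
    simpa using this
  have hZT : (2 : ℝ) ^ T ≤ Z := by
    rw [hZeq]
    push_cast
    apply pow_le_pow_right₀ (by norm_num)
    have h1 : 1 ≤ 1024 * ρ ^ 2 * K := by
      have : 0 < 1024 * ρ ^ 2 * K := by positivity
      omega
    exact Nat.le_mul_of_pos_left _ h1
  refine ⟨U, fun p hp => hPp p (hUP hp), by omega, ?_, ?_, ?_⟩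
  · intro p hp
    have h1 := hPZ p (hUP hp)
    have h2 : N ≤ Z := by
      have h3 : T < 2 ^ T := Nat.lt_two_pow_self
      have h4 : 2 ^ T ≤ Z := by exact_mod_cast hZT
      omega
    omega
  · intro p hp
    obtain ⟨d, hd, rfl⟩ := mem_image.1 (hUP hp)
    rw [Nat.add_sub_cancel]
    exact Nat.Coprime.mul_dvd_of_dvd_of_dvd (hD2adm d hd).2.2.2.symm
      ((hD2dvd d hd).trans hQdvd) hk2dvd
  · intro p hp
    have h1 := hPZ p (hUP hp)
    have h2 : (U.card : ℝ) ≤ ((2 * l : ℕ) : ℝ) := by exact_mod_cast hUle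
    have h3 : c₂ * 2 ^ T / (1024 * K * (T : ℝ) ^ 2) ^ 2 < ε * 2 ^ T := by
      calc c₂ * 2 ^ T / (1024 * K * (T : ℝ) ^ 2) ^ 2 =
          c₂ / (1024 * K * (T : ℝ) ^ 2) ^ 2 * 2 ^ T := by ring
        _ < ε * 2 ^ T := mul_lt_mul_of_pos_right hTε (by positivity)
    have h4 : (Z : ℝ) ≤ p := by exact_mod_cast h1.le
    calc (U.card : ℝ) ≤ ((2 * l : ℕ) : ℝ) := h2
      _ ≤ c₂ * 2 ^ T / (1024 * K * (T : ℝ) ^ 2) ^ 2 := hbig
      _ < ε * 2 ^ T := h3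
      _ ≤ ε * p := mul_le_mul_of_nonneg_left (hZT.trans h4) hε.le

/-- the number of residues coprime to a product of distinct large primes -/
theorem totient_lower (U : Finset ℕ) (hU : ∀ p ∈ U, p.Prime) (ε : ℝ)
    (hne : U.Nonempty)
    (hUε : ∀ p ∈ U, (U.card : ℝ) < ε * p) :
    (1 - ε) * ((∏ p ∈ U, p : ℕ) : ℝ) < ((∏ p ∈ U, p).totient : ℝ) := by
  classical
  set n := ∏ p ∈ U, p with hn
  have hnpos : 0 < n := prod_pos fun p hp => (hU p hp).pos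
  have hnR : (0 : ℝ) < n := by exact_mod_cast hnpos
  have h1 : (range n).card = ((range n).filter (fun a => n.Coprime a)).card +
      ((range n).filter (fun a => ¬ n.Coprime a)).card :=
    (card_filter_add_card_filter_not (s := range n) (fun a => n.Coprime a)).symm
  rw [card_range, ← Nat.totient_eq_card_coprime] at h1
  have h2 : ((range n).filter (fun a => ¬ n.Coprime a)) ⊆
      U.biUnion (fun p => (range (n / p)).image (fun b => p * b)) := by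
    intro a ha
    rw [mem_filter, mem_range] at ha
    obtain ⟨p, hp, hpn, hpa⟩ := Nat.Prime.not_coprime_iff_dvd.1 ha.2
    rw [hn] at hpn
    obtain ⟨q, hq, hpq⟩ := (hp.prime.dvd_finsetProd_iff _).1 hpn
    have hpq' : p = q := (Nat.prime_dvd_prime_iff_eq hp (hU q hq)).1 hpq
    rw [mem_biUnion]
    refine ⟨q, hq, ?_⟩
    rw [← hpq']
    obtain ⟨b, hb⟩ := hpa
    rw [mem_image]
    refine ⟨b, ?_, hb.symm⟩
    rw [mem_range, Nat.lt_div_iff_mul_lt' (by rw [hn]; exact hpn)]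
    rw [← hb]
    exact ha.1
  have h3 : (((range n).filter (fun a => ¬ n.Coprime a)).card : ℝ) ≤
      ∑ p ∈ U, (n : ℝ) / p := by
    have h4 := (card_le_card h2).trans card_biUnion_le
    have h5 : ∑ p ∈ U, ((range (n / p)).image (fun b => p * b)).card ≤ ∑ p ∈ U, n / p :=
      sum_le_sum fun p _ => card_image_le.trans (by rw [card_range])
    calc (((range n).filter (fun a => ¬ n.Coprime a)).card : ℝ) ≤ ((∑ p ∈ U, n / p : ℕ) : ℝ) := by
          exact_mod_cast h4.trans h5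
      _ ≤ ∑ p ∈ U, (n : ℝ) / p := by
          push_cast
          exact sum_le_sum fun p _ => Nat.cast_div_le
  have h6 : ∑ p ∈ U, (n : ℝ) / p < ∑ _p ∈ U, ε * n / U.card := by
    apply sum_lt_sum_of_nonempty hne
    intro p hp
    have hp0 : (0 : ℝ) < p := by exact_mod_cast (hU p hp).pos
    have hUc : (0 : ℝ) < U.card := by exact_mod_cast hne.card_pos
    rw [div_lt_div_iff₀ hp0 hUc]
    have := hUε p hp
    nlinarith
  rw [sum_const, nsmul_eq_mul] at h6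
  have hUc : (0 : ℝ) < U.card := by exact_mod_cast hne.card_pos
  have h7 : (U.card : ℝ) * (ε * n / U.card) = ε * n := by
    rw [mul_comm, div_mul_cancel₀ _ hUc.ne']
  rw [h7] at h6
  have h8 : (n : ℝ) = (n.totient : ℝ) +
      (((range n).filter (fun a => ¬ n.Coprime a)).card : ℝ) := by exact_mod_cast h1
  linarith

/-- the Fermat congruence modulo a squarefree number -/
theorem fermat (U : Finset ℕ) (hU : ∀ p ∈ U, p.Prime)
    (hdvd : ∀ p ∈ U, (p - 1) ∣ (∏ p ∈ U, p) - 1) (a : ℕ) (ha : (∏ p ∈ U, p).Coprime a) :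
    a ^ ((∏ p ∈ U, p) - 1) ≡ 1 [MOD (∏ p ∈ U, p)] := by
  have ha0 : 0 < a ∨ (∏ p ∈ U, p) = 1 := by
    rcases Nat.eq_zero_or_pos a with h | h
    · right; rw [h] at ha; simpa using ha
    · left; exact h
  rcases ha0 with ha0 | h1
  · have hpow : 1 ≤ a ^ ((∏ p ∈ U, p) - 1) := Nat.one_le_pow _ _ ha0
    refine Nat.ModEq.symm ?_
    rw [Nat.modEq_iff_dvd' hpow]
    apply Finset.prod_primes_dvd
    · intro p hp
      exact (hU p hp).prime
    · intro p hp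
      rw [← Nat.modEq_iff_dvd' hpow]
      refine Nat.ModEq.symm ?_
      obtain ⟨r, hr⟩ := hdvd p hp
      have hcop : a.Coprime p := by
        have : p ∣ ∏ p ∈ U, p := dvd_prod_of_mem _ hp
        exact (Nat.Coprime.coprime_dvd_left this ha).symm
      have h2 := Nat.ModEq.pow_totient hcop
      rw [Nat.totient_prime (hU p hp)] at h2
      rw [hr, pow_mul]
      simpa using h2.pow r
  · rw [h1]; exact Nat.modEq_one

theorem main (ε : ℝ) (hε : 0 < ε) (N : ℕ) : ∃ n : ℕ, N < n ∧ 1 < n ∧ ¬ Nat.Prime n ∧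
      (1 - ε) * (n : ℝ) <
        (((Finset.range n).filter (fun a => a ^ (n - 1) ≡ 1 [MOD n])).card : ℝ) := by
  classical
  obtain ⟨U, hU, hUc, hUN, hdvd, hUε⟩ := exists_carm ε hε N
  have hne : U.Nonempty := by rw [← card_pos]; omega
  obtain ⟨p, hp⟩ := hne
  obtain ⟨q, hq, hqp⟩ := exists_mem_ne (by omega : 1 < U.card) p
  have hpn : p ∣ ∏ p ∈ U, p := dvd_prod_of_mem _ hp
  have hqn : q ∣ ∏ p ∈ U, p := dvd_prod_of_mem _ hq
  have hnpos : 0 < ∏ p ∈ U, p := prod_pos fun p hp => (hU p hp).pos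
  refine ⟨∏ p ∈ U, p, lt_of_lt_of_le (hUN p hp) (Nat.le_of_dvd hnpos hpn),
    lt_of_lt_of_le (hU p hp).one_lt (Nat.le_of_dvd hnpos hpn), ?_, ?_⟩
  · intro hprime
    have h1 := (Nat.prime_dvd_prime_iff_eq (hU p hp) hprime).1 hpn
    have h2 := (Nat.prime_dvd_prime_iff_eq (hU q hq) hprime).1 hqn
    exact hqp (h2.trans h1.symm)
  · refine lt_of_lt_of_le (totient_lower U hU ε ⟨p, hp⟩ hUε) ?_
    rw [Nat.totient_eq_card_coprime]
    exact_mod_cast card_le_card fun a ha => by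
      rw [mem_filter] at ha ⊢
      exact ⟨ha.1, fermat U hU hdvd a ha.2⟩

end Pool.Agent.H588_CM
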